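import Mathlib
import Pool.Graph.R_seed8.TH835.G5.Lower

/-!
# The case `k = 5` of the linear growth problem for the Erdős–Szekeres type function `g(k,n)`

`g(5,n) = 2n - 1` for `n ≥ 5`, hence `g(5,n)/n → 2 = (5-1)/2`.
-/

set_option autoImplicit false

open Finset Filter

namespace Pool.Agent.Results.MP_ec6744_co.FiveVertices

/-- the Euclidean plane -/
abbrev Pl := EuclideanSpace ℝ (Fin 2)

/-- no three points of `S` lie on a line -/
def GenPos (S : Finset Pl) : Prop :=
  ∀ a ∈ S, ∀ b ∈ S, ∀ c ∈ S, a ≠ b → a ≠ c → b ≠ c → ¬ Collinear ℝ ({a, b, c} : Set Pl)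

/-- number of vertices of the convex hull of `T` -/
noncomputable def hullVertices (T : Finset Pl) : ℕ :=
  ({p : Pl | p ∈ T ∧ p ∉ convexHull ℝ ((T : Set Pl) \ {p})}).ncard

/-- the function `g(k,n)` of the problem -/
noncomputable def g (k n : ℕ) : ℕ :=
  sInf {N : ℕ | ∀ S : Finset Pl, S.card = N → GenPos S →
    ∃ T : Finset Pl, T ⊆ S ∧ T.card = n ∧ k ≤ hullVertices T}

/-- coordinates -/
noncomputable def e : Pl ≃ₗ[ℝ] ℝ × ℝ :=
  (EuclideanSpace.equiv (Fin 2) ℝ).toLinearEquiv.trans (LinearEquiv.finTwoArrow ℝ ℝ)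

lemma col_map {E F : Type} [AddCommGroup E] [Module ℝ E] [AddCommGroup F] [Module ℝ F]
    (f : E →ₗ[ℝ] F) {s : Set E} (h : Collinear ℝ s) : Collinear ℝ (f '' s) := by
  rw [collinear_iff_exists_forall_eq_smul_vadd] at h ⊢
  obtain ⟨p0, v, h⟩ := h
  refine ⟨f p0, f v, ?_⟩
  rintro _ ⟨x, hx, rfl⟩
  obtain ⟨r, hr⟩ := h x hx
  exact ⟨r, by rw [hr]; simp⟩

lemma ext_eq {E : Type} [AddCommGroup E] [Module ℝ E] (S : Set E) :
    (convexHull ℝ S).extremePoints ℝ = {p | p ∈ S ∧ p ∉ convexHull ℝ (S \ {p})} := by
  ext x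
  constructor
  · intro hx
    refine ⟨extremePoints_convexHull_subset hx, fun hx' => ?_⟩
    have h := ((convex_convexHull ℝ S).mem_extremePoints_iff_mem_sdiff_convexHull_sdiff.mp hx).2
    exact h (convexHull_mono (Set.sdiff_subset_sdiff_left (subset_convexHull ℝ S)) hx')
  · rintro ⟨hxS, hx⟩
    have hins : S = insert x (S \ {x}) := by
      ext y
      simp only [Set.mem_insert_iff, Set.mem_sdiff, Set.mem_singleton_iff]
      by_cases h : y = x
      · subst h; simp [hxS]
      · simp [h]
    rw [mem_extremePoints]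
    refine ⟨subset_convexHull ℝ S hxS, ?_⟩
    rcases (S \ {x}).eq_empty_or_nonempty with hemp | hne
    · rw [hemp] at hins
      intro y hy z hz _
      rw [hins] at hy hz
      simp only [insert_empty_eq, convexHull_singleton, Set.mem_singleton_iff] at hy hz
      exact ⟨hy, hz⟩
    · have key : ∀ y ∈ convexHull ℝ S, ∃ a b : ℝ, 0 ≤ a ∧ 0 ≤ b ∧ a + b = 1 ∧
          ∃ k ∈ convexHull ℝ (S \ {x}), y = a • x + b • k := by
        intro y hy
        rw [hins, convexHull_insert hne] at hy
        obtain ⟨x', hx', k, hk, hseg⟩ := mem_convexJoin.mp hy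
        rw [Set.mem_singleton_iff] at hx'
        subst hx'
        obtain ⟨a, b, ha, hb, hab, h⟩ := hseg
        exact ⟨a, b, ha, hb, hab, k, hk, h.symm⟩
      intro y hy z hz hseg
      obtain ⟨a, b, ha, hb, hab, k, hk, rfl⟩ := key y hy
      obtain ⟨c, d, hc, hd, hcd, l, hl, rfl⟩ := key z hz
      obtain ⟨s, t, hs, ht, hst, h⟩ := hseg
      -- the total weight of the other points
      set w : ℝ := s * b + t * d with hw
      have hw0 : 0 ≤ w := by positivity
      have hbd : w = 0 := by
        by_contra hne'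
        have hwpos : 0 < w := lt_of_le_of_ne hw0 (Ne.symm hne')
        apply hx
        have hconv := convex_convexHull ℝ (S \ {x})
        have hmem := hconv hk hl (a := s * b / w) (b := t * d / w) (by positivity)
          (by positivity) (by rw [← add_div, ← hw, div_self hne'])
        have : x = (s * b / w) • k + (t * d / w) • l := by
          have h1 : w • x = (s * b) • k + (t * d) • l := by
            have e1 : w = 1 - (s * a + t * c) := by
              have : a = 1 - b := by linarith
              have : c = 1 - d := by linarith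
              subst_vars
              rw [hw]; nlinarith [hst]
            have h2 : (s * a + t * c) • x + ((s * b) • k + (t * d) • l) = x := by
              refine Eq.trans ?_ h
              simp only [smul_add, smul_smul, add_smul]
              abel
            rw [e1, sub_smul, one_smul]
            nth_rewrite 1 [← h2]
            abel
          have h3 : x = w⁻¹ • (w • x) := by rw [smul_smul, inv_mul_cancel₀ hne', one_smul]
          rw [h3, h1, smul_add, smul_smul, smul_smul]
          congr 2 <;> ring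
        rw [← this] at hmem
        exact hmem
      have hb0 : b = 0 := by
        have h1 : s * b ≤ 0 := by
          have : 0 ≤ t * d := by positivity
          linarith
        have h2 : 0 ≤ s * b := by positivity
        have h3 : s * b = 0 := le_antisymm h1 h2
        exact (mul_eq_zero.mp h3).resolve_left hs.ne'
      have hd0 : d = 0 := by
        have h1 : t * d ≤ 0 := by
          have : 0 ≤ s * b := by positivity
          linarith
        have h2 : 0 ≤ t * d := by positivity
        have h3 : t * d = 0 := le_antisymm h1 h2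
        exact (mul_eq_zero.mp h3).resolve_left ht.ne'
      subst hb0 hd0
      have ha1 : a = 1 := by linarith
      have hc1 : c = 1 := by linarith
      subst ha1 hc1
      simp

lemma hull_map (T : Finset Pl) : hullVertices T =
    ((convexHull ℝ ((T.map e.toEquiv.toEmbedding : Finset (ℝ × ℝ)) : Set (ℝ × ℝ))).extremePoints
      ℝ).ncard := by
  classical
  unfold hullVertices
  rw [ext_eq]
  have : ({p : ℝ × ℝ | p ∈ ((T.map e.toEquiv.toEmbedding : Finset (ℝ × ℝ)) : Set (ℝ × ℝ)) ∧
      p ∉ convexHull ℝ (((T.map e.toEquiv.toEmbedding : Finset (ℝ × ℝ)) : Set (ℝ × ℝ)) \ {p})}) =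
      e '' {p : Pl | p ∈ T ∧ p ∉ convexHull ℝ ((T : Set Pl) \ {p})} := by
    have him : ((T.map e.toEquiv.toEmbedding : Finset (ℝ × ℝ)) : Set (ℝ × ℝ)) = e '' (T : Set Pl) := by
      ext x; simp
    rw [him]
    have hch : ∀ q : Pl, (e q ∈ convexHull ℝ (e '' (T : Set Pl) \ {e q})) ↔
        q ∈ convexHull ℝ ((T : Set Pl) \ {q}) := by
      intro q
      have h1 : e '' (T : Set Pl) \ {e q} = e '' ((T : Set Pl) \ {q}) := by
        rw [Set.image_sdiff e.injective, Set.image_singleton]
      rw [h1]
      have h2 := LinearMap.image_convexHull (e : Pl →ₗ[ℝ] ℝ × ℝ) ((T : Set Pl) \ {q})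
      have h3 : (e : Pl →ₗ[ℝ] ℝ × ℝ) '' ((T : Set Pl) \ {q}) = e '' ((T : Set Pl) \ {q}) := rfl
      rw [← h3, ← h2]
      exact e.injective.mem_set_image
    ext p
    constructor
    · rintro ⟨⟨q, hq, rfl⟩, hp⟩
      exact ⟨q, ⟨hq, fun h => hp ((hch q).mpr h)⟩, rfl⟩
    · rintro ⟨q, ⟨hq, hp⟩, rfl⟩
      exact ⟨⟨q, hq, rfl⟩, fun h => hp ((hch q).mp h)⟩
  rw [this, Set.ncard_image_of_injective _ e.injective]

lemma col_iff (a b c : Pl) : Collinear ℝ ({a, b, c} : Set Pl) ↔
    Collinear ℝ ({e a, e b, e c} : Set (ℝ × ℝ)) := by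
  constructor
  · intro h
    have := col_map (e : Pl →ₗ[ℝ] ℝ × ℝ) h
    simpa [Set.image_insert_eq] using this
  · intro h
    have := col_map (e.symm : ℝ × ℝ →ₗ[ℝ] Pl) h
    simpa [Set.image_insert_eq] using this

/-- `g(5,n) = 2n - 1` for `n ≥ 5`. -/
theorem exact (n : ℕ) (hn : 5 ≤ n) : g 5 n = 2 * n - 1 := by
  classical
  have hleast : IsLeast {N : ℕ | ∀ S : Finset Pl, S.card = N → GenPos S →
      ∃ T : Finset Pl, T ⊆ S ∧ T.card = n ∧ 5 ≤ hullVertices T} (2 * n - 1) := by
    constructor
    · intro S hS hgen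
      obtain ⟨A, hAS, hAn, hA5⟩ := Pool.Agent.TH835.G5.upper n hn
        (S.map e.toEquiv.toEmbedding) (by rw [card_map]; exact hS) (by
          intro a ha b hb c hc hab hac hbc
          rw [Finset.mem_map] at ha hb hc
          obtain ⟨a, ha, rfl⟩ := ha
          obtain ⟨b, hb, rfl⟩ := hb
          obtain ⟨c, hc, rfl⟩ := hc
          intro hcol
          refine hgen a ha b hb c hc (fun h => hab (by rw [h])) (fun h => hac (by rw [h]))
            (fun h => hbc (by rw [h])) ((col_iff a b c).mpr ?_)
          simpa using hcol)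
      refine ⟨A.map e.symm.toEquiv.toEmbedding, ?_, by rw [card_map]; exact hAn, ?_⟩
      · intro x hx
        rw [Finset.mem_map] at hx
        obtain ⟨y, hy, rfl⟩ := hx
        have := hAS hy
        rw [Finset.mem_map] at this
        obtain ⟨z, hz, hzy⟩ := this
        subst hzy
        simpa using hz
      · rw [hull_map]
        have : (A.map e.symm.toEquiv.toEmbedding).map e.toEquiv.toEmbedding = A := by
          ext x
          simp only [Finset.mem_map]
          constructor
          · rintro ⟨y, ⟨z, hz, rfl⟩, rfl⟩; simpa using hz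
          · intro hx; exact ⟨e.symm x, ⟨x, hx, rfl⟩, by simp⟩
        rw [this]
        exact hA5
    · intro N hN
      refine Pool.Agent.TH835.G5.lower n hn N ?_
      intro A hA hcol
      obtain ⟨T, hTS, hTn, hT5⟩ := hN (A.map e.symm.toEquiv.toEmbedding)
        (by rw [card_map]; exact hA) (by
          intro a ha b hb c hc hab hac hbc
          rw [Finset.mem_map] at ha hb hc
          obtain ⟨a, ha, rfl⟩ := ha
          obtain ⟨b, hb, rfl⟩ := hb
          obtain ⟨c, hc, rfl⟩ := hc
          intro hcol'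
          refine hcol a ha b hb c hc (fun h => hab (by rw [h])) (fun h => hac (by rw [h]))
            (fun h => hbc (by rw [h])) ?_
          have := (col_iff _ _ _).mp hcol'
          simpa using this)
      refine ⟨T.map e.toEquiv.toEmbedding, ?_, by rw [card_map]; exact hTn, ?_⟩
      · intro x hx
        rw [Finset.mem_map] at hx
        obtain ⟨y, hy, rfl⟩ := hx
        have := hTS hy
        rw [Finset.mem_map] at this
        obtain ⟨z, hz, hzy⟩ := this
        subst hzy
        simpa using hz
      · rw [← hull_map]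
        exact hT5
  exact hleast.csInf_eq

/-- The case `k = 5` of Q1: `g(5,n) = 2n - 1` for all `n ≥ 5`, and `g(5,n)/n → (5-1)/2`. -/
theorem result : (∀ n : ℕ, 5 ≤ n → g 5 n = 2 * n - 1) ∧
    Tendsto (fun n : ℕ => (g 5 n : ℝ) / (n : ℝ)) atTop (nhds (((5 : ℝ) - 1) / 2)) := by
  refine ⟨exact, ?_⟩
  have h1 : Tendsto (fun n : ℕ => (2 : ℝ) - 1 / (n : ℝ)) atTop (nhds (2 - 0)) :=
    tendsto_const_nhds.sub tendsto_one_div_atTop_nhds_zero_nat
  have h2 : (((5 : ℝ) - 1) / 2) = 2 - 0 := by norm_num
  rw [h2]
  refine h1.congr' ?_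
  filter_upwards [eventually_ge_atTop 5] with n hn
  rw [exact n hn, Nat.cast_sub (by omega)]
  have : (n : ℝ) ≠ 0 := by
    have : 0 < n := by omega
    exact_mod_cast this.ne'
  push_cast
  field_simp

end Pool.Agent.Results.MP_ec6744_co.FiveVertices
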